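import Pool.Agent.MWF.Stmts

/-!
# MWF, row SMP: identities keep the sequence of the simple letters
-/

namespace Pool.Agent.MWF.H90

open Pool.Agent.Helper14_MV Pool.Agent.Helper2_MV

theorem filter_pair {a b : ℕ} (hab : a ≠ b) : ∀ {t : List ℕ}, t.Nodup → a ∉ t → b ∈ t →
    t.filter (fun c => decide (c = a ∨ c = b)) = [b]
  | [], _, _, hb => by simp at hb
  | c :: t, hn, ha, hb => by
    rw [List.nodup_cons] at hn
    by_cases hcb : c = b
    · subst hcb
      rw [List.filter_cons_of_pos (by simp)]
      have : t.filter (fun d => decide (d = a ∨ d = c)) = [] := by
        rw [List.filter_eq_nil_iff]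
        intro d hd
        simp only [decide_eq_true_eq, not_or]
        refine ⟨?_, ?_⟩
        · rintro rfl
          exact ha (List.mem_cons_of_mem _ hd)
        · rintro rfl
          exact hn.1 hd
      rw [this]
    · have hca : c ≠ a := by
        rintro rfl
        exact ha (by simp)
      rw [List.filter_cons_of_neg (by simp [hcb, hca])]
      refine filter_pair hab hn.2 (fun h => ha (List.mem_cons_of_mem _ h)) ?_
      rcases List.mem_cons.1 hb with h | h
      · exact absurd h.symm hcb
      · exact h

theorem key {β : FIC} (hc : ¬ RR β [0, 1] [1, 0]) (hmem : ∀ u v : List ℕ, RR β u v →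
    ∀ c, c ∈ u ↔ c ∈ v) : ∀ (l l' : List ℕ), l.Nodup → l'.Nodup → RR β l l' → l = l'
  | [], l', _, _, h => by
    cases l' with
    | nil => rfl
    | cons a t => exact absurd ((hmem _ _ h a).2 (by simp)) (by simp)
  | a :: t, l', hn, hn', h => by
    have ha : a ∈ l' := (hmem _ _ h a).1 (by simp)
    rw [List.nodup_cons] at hn
    cases l' with
    | nil => simp at ha
    | cons b q =>
      rw [List.nodup_cons] at hn'
      by_cases hab : a = b
      · subst hab
        have h1 := h.filter (fun c => decide (c ≠ a))
        have e1 : ∀ {s : List ℕ}, a ∉ s → (a :: s).filter (fun c => decide (c ≠ a)) = s := by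
          intro s hs
          rw [List.filter_cons_of_neg (by simp), List.filter_eq_self]
          intro c hc'
          simp only [decide_eq_true_eq]
          rintro rfl
          exact hs hc'
        rw [e1 hn.1, e1 hn'.1] at h1
        rw [key hc hmem t q hn.2 hn'.2 h1]
      · exfalso
        have hb : b ∈ t := by
          rcases List.mem_cons.1 ((hmem _ _ h b).2 (by simp)) with h1 | h1
          · exact absurd h1.symm hab
          · exact h1
        have haq : a ∈ q := by
          rcases List.mem_cons.1 ha with h1 | h1
          · exact absurd h1 hab
          · exact h1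
        have h1 := h.filter (fun c => decide (c = a ∨ c = b))
        rw [List.filter_cons_of_pos (by simp), List.filter_cons_of_pos (by simp),
          filter_pair hab hn.2 hn.1 hb] at h1
        have e2 : q.filter (fun c => decide (c = a ∨ c = b)) = [a] := by
          have := filter_pair (a := b) (b := a) (Ne.symm hab) hn'.2 hn'.1 haq
          rw [← this]
          apply List.filter_congr
          intro c _
          simp [or_comm]
        rw [e2] at h1
        have h2 := h1.sub (fun i => if i = a then [0] else [1])
        apply hc
        simpa [Ne.symm hab] using h2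

theorem smp (h1 : CttStmt) (h2 : SimStmt) : SmpStmt := by
  intro β hA hc u v huv
  have hS : ∀ c, u.count c = 1 ↔ v.count c = 1 := fun c =>
    ⟨h2 β hA u v huv c, h2 β hA v u huv.symm c⟩
  have e : v.filter (fun c => decide (v.count c = 1)) =
      v.filter (fun c => decide (u.count c = 1)) := by
    apply List.filter_congr
    intro c _
    simp [hS c]
  have nd : ∀ w : List ℕ, (∀ c, u.count c = 1 → w.count c = 1) →
      (w.filter (fun c => decide (u.count c = 1))).Nodup := by
    intro w hw
    rw [List.nodup_iff_count_le_one]
    intro c
    by_cases hu : u.count c = 1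
    · rw [List.count_filter (by simpa using hu)]
      exact le_of_eq (hw c hu)
    · have : c ∉ w.filter (fun c => decide (u.count c = 1)) := by
        intro hm
        rw [List.mem_filter] at hm
        exact hu (by simpa using hm.2)
      rw [List.count_eq_zero_of_not_mem this]
      omega
  rw [e]
  exact key hc (fun a b hab => h1 β hA a b hab) _ _ (nd u (fun _ h => h))
    (nd v (fun c h => (hS c).1 h)) (huv.filter _)

end Pool.Agent.MWF.H90
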